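import Mathlib
import Pool.Agent.Helper19.GUni

set_option autoImplicit false
open scoped ComplexOrder

namespace Pool.Agent.Results.MP_ab5fa7_an.UniversalGap

variable {H : Type} [NormedAddCommGroup H] [InnerProductSpace ℂ H] [CompleteSpace H]

/-- the square of the 2-norm of `x` for the functional `τ` -/
noncomputable def nsq (τ : (H →L[ℂ] H) →ₗ[ℂ] ℂ) (x : H →L[ℂ] H) : ℝ := (τ (star x * x)).re

/-- the square of the 2-norm of the commutator of `a` and `b` -/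
noncomputable def csq (τ : (H →L[ℂ] H) →ₗ[ℂ] ℂ) (a b : H →L[ℂ] H) : ℝ := nsq τ (a * b - b * a)

/-- `u` is a unitary of `N` -/
def UIn (N : VonNeumannAlgebra H) (u : H →L[ℂ] H) : Prop :=
  u ∈ N ∧ star u * u = 1 ∧ u * star u = 1

/-- `N` has trivial centre -/
def Fac (N : VonNeumannAlgebra H) : Prop :=
  ∀ z : H →L[ℂ] H, z ∈ N → (∀ x : H →L[ℂ] H, x ∈ N → z * x = x * z) →
    ∃ c : ℂ, z = c • (1 : H →L[ℂ] H)

/-- the linear span of `N` is infinite-dimensional -/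
def Inf (N : VonNeumannAlgebra H) : Prop :=
  ¬ FiniteDimensional ℂ (Submodule.span ℂ (N : Set (H →L[ℂ] H)))

/-- `τ` restricts to a faithful state of `N` -/
def FState (N : VonNeumannAlgebra H) (τ : (H →L[ℂ] H) →ₗ[ℂ] ℂ) : Prop :=
  τ 1 = 1 ∧ ∀ x : H →L[ℂ] H, x ∈ N → 0 ≤ τ (star x * x) ∧ (τ (star x * x) = 0 → x = 0)

/-- `τ` is tracial on `N` -/
def Tracial (N : VonNeumannAlgebra H) (τ : (H →L[ℂ] H) →ₗ[ℂ] ℂ) : Prop :=
  ∀ x : H →L[ℂ] H, x ∈ N → ∀ y : H →L[ℂ] H, y ∈ N → τ (x * y) = τ (y * x)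

/-- failure of property Gamma for `N` -/
def NonGamma (N : VonNeumannAlgebra H) (τ : (H →L[ℂ] H) →ₗ[ℂ] ℂ) : Prop :=
  ∃ n : ℕ, ∃ x : Fin n → (H →L[ℂ] H), (∀ j, x j ∈ N) ∧ ∃ ε : ℝ, 0 < ε ∧
    ∀ u : H →L[ℂ] H, UIn N u → τ u = 0 → ∃ j : Fin n, ε ^ 2 ≤ csq τ u (x j)

/-- `k` unitaries of `N` detect all trace-zero contractions of `N` -/
def Gap (k : ℕ) (N : VonNeumannAlgebra H) (τ : (H →L[ℂ] H) →ₗ[ℂ] ℂ) : Prop :=
  ∃ u : Fin k → (H →L[ℂ] H), (∀ j, UIn N (u j)) ∧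
    ∀ y : H →L[ℂ] H, y ∈ N → ‖y‖ ≤ 1 → τ y = 0 →
      (1 / 2) * (nsq τ y - 1 / 10) ≤ (k : ℝ)⁻¹ * ∑ j, csq τ (u j) y

/-- There is a number `k` such that every non-Gamma factor `N` on a Hilbert space with a faithful
tracial state `τ` and of infinite dimension contains `k` unitaries `u j` such that every `y ∈ N` with
`‖y‖ ≤ 1` and `τ y = 0` satisfies
`(1/2) (‖y‖₂² - 1/10) ≤ (1/k) ∑ j, ‖u j y - y u j‖₂²`. The number `k` does not depend on `N`. -/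
theorem result :
    ∃ k : ℕ, 0 < k ∧
      ∀ (H : Type) [NormedAddCommGroup H] [InnerProductSpace ℂ H] [CompleteSpace H]
        (N : VonNeumannAlgebra H) (τ : (H →L[ℂ] H) →ₗ[ℂ] ℂ),
        Fac N → Inf N → FState N τ → Tracial N τ → NonGamma N τ → Gap k N τ := by
  obtain ⟨k, hk, h⟩ := Pool.Agent.Helper19.Gam.universal_vn
  refine ⟨k, hk, fun H _ _ _ N τ h1 h2 h3 h4 h5 => ?_⟩
  refine h H N τ ⟨h1, h2, h3.1, h4, fun x hx => (h3.2 x hx).1, fun x hx => (h3.2 x hx).2⟩ ?_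
  obtain ⟨n, x, hx, ε, hε, hu⟩ := h5
  exact ⟨n, x, hx, ε, hε, fun u h6 h7 h8 h9 => hu u ⟨h6, h7, h8⟩ h9⟩

end Pool.Agent.Results.MP_ab5fa7_an.UniversalGap
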